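import Mathlib
import Pool.Prelude.Def_F_72ad9e24
import Pool.Agent.Helper6.LehmerIndexTwo

/-!
A bound for the solutions of `n ≡ a(n) (mod φ(n))` in terms of the number of prime factors and of
the index `(n - 1) / φ(n)`.
-/

namespace Pool.Agent.Results.MP_b50d59_nt.IndexDoubleExp

open Pool.Agent.Helper6.Lehmer

/-- There is a constant `c > 0` such that every composite `n > 4` with `n ≡ a(n) (mod φ(n))`, where
`a(n)` is the largest exponent in the prime factorisation of `n`, has `n - 1 = k φ(n)` with an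
integer `k` for which `n < 2 ^ (2 ^ (K - exp (exp (c k))))` (real exponents), where `K = ω(n)` is
the number of distinct prime factors of `n`. In particular `K > exp (exp (c k))`. -/
theorem result : ∃ c : ℝ, 0 < c ∧ ∀ n : ℕ, 4 < n → ¬ n.Prime → n.totient ∣ n - Nca8c8b9b.a n →
    ∃ k : ℕ, n - 1 = k * n.totient ∧
      (n : ℝ) < (2 : ℝ) ^ ((2 : ℝ) ^ ((n.primeFactors.card : ℝ) - Real.exp (Real.exp (c * k)))) ∧
      Real.exp (Real.exp (c * k)) < (n.primeFactors.card : ℝ) := by
  obtain ⟨c, hc, h⟩ := combined_bound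
  refine ⟨c, hc, fun n hn hnp hd => ?_⟩
  have hL : IsLehmer n := isLehmer_of_dvd hn hnp hd
  obtain ⟨k, hk⟩ := hL.dvd
  rw [mul_comm] at hk
  have h1 := h n k hL hk
  refine ⟨k, hk, h1, ?_⟩
  by_contra hcon
  rw [not_lt] at hcon
  have h2 : (2 : ℝ) ^ ((n.primeFactors.card : ℝ) - Real.exp (Real.exp (c * k))) ≤ 1 :=
    Real.rpow_le_one_of_one_le_of_nonpos (by norm_num) (by linarith)
  have h3 : (2 : ℝ) ^ ((2 : ℝ) ^ ((n.primeFactors.card : ℝ) - Real.exp (Real.exp (c * k)))) ≤
      (2 : ℝ) ^ (1 : ℝ) := Real.rpow_le_rpow_of_exponent_le (by norm_num) h2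
  have h4 : (4 : ℝ) < n := by exact_mod_cast hn
  rw [Real.rpow_one] at h3
  linarith

end Pool.Agent.Results.MP_b50d59_nt.IndexDoubleExp
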